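import Pool.Agent.helper48.TH.Spec

set_option autoImplicit false

namespace TP.TW

open DP MeasureTheory Finset

open Classical in
theorem INF (she : SHE_stmt) (yng : YNG_stmt) (cxe : CXE_stmt) : INF_stmt := by
  intro n κ T E F Λ A M p hp hE hF hM
  have h2n : (0 : ℝ) < 2 ^ n := by positivity
  by_cases hp0 : p = 0
  · have hc : #{x | E x} = 0 := by
      rw [hp0] at hp
      have h := hp.symm
      rw [div_eq_zero_iff] at h
      rcases h with h | h
      · exact_mod_cast h
      · exact absurd h (ne_of_gt h2n)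
    have hle : ∀ τ ∈ T, (#{x | E x ∧ F τ x} : ℝ) / 2 ^ n = 0 := by
      intro τ _
      have h1 : #{x | E x ∧ F τ x} ≤ #{x | E x} := by
        apply card_le_card
        intro x hx
        simp only [mem_filter, mem_univ, true_and] at hx ⊢
        exact hx.1
      have h2 : #{x | E x ∧ F τ x} = 0 := by omega
      rw [h2]; simp
    rw [sum_eq_zero hle, hp0]
    simp
  · have hpnn : 0 ≤ p := by rw [hp]; positivity
    have hppos : 0 < p := lt_of_le_of_ne hpnn (Ne.symm hp0)
    set f : (Fin n → Bool) → ℝ := fun x => if E x then 1 / p else 0 with hf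
    have hf0 : ∀ x, 0 ≤ f x := by
      intro x
      simp only [hf]
      split_ifs
      · positivity
      · exact le_refl _
    have havE : ∀ c : ℝ, av (fun x : Fin n → Bool => if E x then c else 0) = p * c := by
      intro c
      unfold av
      rw [← sum_filter, sum_const, nsmul_eq_mul, hp]
      ring
    have hav : av f = 1 := by
      rw [hf, havE]
      field_simp
    have hEt : Et f = Real.log (1 / p) := by
      unfold Et
      have h1 : (fun x => ph (f x)) = fun x => if E x then ph (1 / p) else 0 := by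
        funext x
        simp only [hf]
        split_ifs
        · rfl
        · unfold ph; simp
      rw [h1, havE, hav]
      unfold ph
      rw [Real.log_one, mul_zero, sub_zero, ← mul_assoc]
      have h2 : p * (1 / p) = 1 := by field_simp
      rw [h2, one_mul]
    obtain ⟨d, hd0, hdsum, hdA⟩ := she n f hf0
    have hfΛ : ∀ x y, (∀ i ∈ Λ, x i = y i) → f x = f y := by
      intro x y hxy
      have h := hE x y hxy
      simp only [hf]
      by_cases hx : E x
      · rw [if_pos hx, if_pos (h.1 hx)]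
      · rw [if_neg hx, if_neg (fun hy => hx (h.2 hy))]
    have hterm : ∀ τ ∈ T, (#{x | E x ∧ F τ x} : ℝ) / 2 ^ n ≤
        p * (∑ i ∈ A τ ∩ Λ, d i) + 2 * p * ((#{x | F τ x} : ℝ) / 2 ^ n) := by
      intro τ hτ
      obtain ⟨c1, c2, c3, c4⟩ := cxe n (A τ) f
      have h1 : (#{x | E x ∧ F τ x} : ℝ) / 2 ^ n = p * av (fun x => if F τ x then f x else 0) := by
        unfold av
        have h3 : (∑ x, if F τ x then f x else 0) = (#{x | E x ∧ F τ x} : ℝ) * (1 / p) := by
          have h4 : ∀ x, (if F τ x then f x else 0) = if (E x ∧ F τ x) then 1 / p else 0 := by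
            intro x
            simp only [hf]
            by_cases hx : E x <;> by_cases hy : F τ x <;> simp [hx, hy]
          rw [sum_congr rfl (fun x _ => h4 x), ← sum_filter, sum_const, nsmul_eq_mul]
        rw [h3]
        field_simp
      have h5 := c3 (F τ) (hF τ hτ)
      have h6 := yng n (cex (A τ) f) (F τ) (c1 hf0) (by rw [c2, hav])
      have h7 : Et (cex (A τ) f) ≤ ∑ i ∈ A τ ∩ Λ, d i := by
        rw [c4 Λ hfΛ]
        exact hdA _
      rw [h1, h5]
      have h8 : av (fun x => if F τ x then cex (A τ) f x else 0) ≤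
          (∑ i ∈ A τ ∩ Λ, d i) + 2 * ((#{x | F τ x} : ℝ) / 2 ^ n) := by linarith
      calc p * av (fun x => if F τ x then cex (A τ) f x else 0) ≤
          p * ((∑ i ∈ A τ ∩ Λ, d i) + 2 * ((#{x | F τ x} : ℝ) / 2 ^ n)) := mul_le_mul_of_nonneg_left h8 hpnn
        _ = _ := by ring
    have hsum : ∑ τ ∈ T, ∑ i ∈ A τ ∩ Λ, d i ≤ M * Real.log (1 / p) := by
      have h1 : ∑ τ ∈ T, ∑ i ∈ A τ ∩ Λ, d i = ∑ i ∈ Λ, (#{τ ∈ T | i ∈ A τ} : ℝ) * d i := by
        have h2 : ∀ τ ∈ T, ∑ i ∈ A τ ∩ Λ, d i = ∑ i ∈ Λ, if i ∈ A τ then d i else 0 := by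
          intro τ _
          rw [inter_comm, ← sum_filter]
          refine sum_congr ?_ fun _ _ => rfl
          ext i
          simp only [mem_inter, mem_filter]
        rw [sum_congr rfl h2, sum_comm]
        refine sum_congr rfl fun i _ => ?_
        rw [← sum_filter, sum_const, nsmul_eq_mul]
      rw [h1, ← hEt, ← hdsum, mul_sum]
      calc ∑ i ∈ Λ, (#{τ ∈ T | i ∈ A τ} : ℝ) * d i ≤ ∑ i ∈ Λ, (M : ℝ) * d i := by
            refine sum_le_sum fun i hi => mul_le_mul_of_nonneg_right ?_ (hd0 i)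
            exact_mod_cast hM i hi
        _ ≤ ∑ i, (M : ℝ) * d i := sum_le_sum_of_subset_of_nonneg (subset_univ _)
            fun i _ _ => mul_nonneg (Nat.cast_nonneg _) (hd0 i)
    calc ∑ τ ∈ T, (#{x | E x ∧ F τ x} : ℝ) / 2 ^ n ≤
        ∑ τ ∈ T, (p * (∑ i ∈ A τ ∩ Λ, d i) + 2 * p * ((#{x | F τ x} : ℝ) / 2 ^ n)) := sum_le_sum hterm
      _ = p * (∑ τ ∈ T, ∑ i ∈ A τ ∩ Λ, d i) + 2 * p * ∑ τ ∈ T, (#{x | F τ x} : ℝ) / 2 ^ n := by
          rw [sum_add_distrib, mul_sum, mul_sum]
      _ ≤ p * (M * Real.log (1 / p)) + 2 * p * ∑ τ ∈ T, (#{x | F τ x} : ℝ) / 2 ^ n := by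
          have := mul_le_mul_of_nonneg_left hsum hpnn
          linarith

end TP.TW
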